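import Pool.Agent.Q40.EGZ.Core

/-!
Problem MP_4c442e_co: the modified Erdős-Ginzburg-Ziv constant of `(Z/2^k)^d` equals
`2^d 2^k - l + 1`, where `l` is the least integer `≥ 2^d` not dividing `2^k`, for all `k ≥ 0` and
`d ≥ 1`.
-/

set_option autoImplicit false

namespace Pool.Agent.Results.MP_4c442e_co.Full

open Pool.Agent.Q40.EGZ

/-- The sequence `S` over `G` has a zero-sum subsequence of length `t`. -/
def HasZeroSub {G : Type} [AddCommGroup G] (S : List G) (t : ℕ) : Prop :=
  ∃ T : List G, T.Sublist S ∧ T.length = t ∧ T.sum = 0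

/-- `L` is the modified Erdős-Ginzburg-Ziv constant of `G` for the length `t`: the least integer
such that every zero-sum sequence over `G` of length at least `L` has a zero-sum subsequence of
length `t`. -/
def IsModifiedEGZ (G : Type) [AddCommGroup G] (t L : ℕ) : Prop :=
  IsLeast {L : ℕ | ∀ S : List G, S.sum = 0 → L ≤ S.length → HasZeroSub S t} L

lemma hasZeroSub_of_le {G : Type} [AddCommGroup G] {S : List G} {t : ℕ} (U : Multiset G)
    (hU : U ≤ (S : Multiset G)) (hc : Multiset.card U = t) (hs : U.sum = 0) : HasZeroSub S t := by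
  induction U using Quotient.inductionOn with
  | h l =>
    rw [Multiset.quot_mk_to_coe] at hU hc hs
    rw [Multiset.coe_le] at hU
    obtain ⟨l', hl', hsub⟩ := hU
    refine ⟨l', hsub, ?_, ?_⟩
    · rw [hl'.length_eq]; simpa using hc
    · rw [hl'.sum_eq]; simpa using hs

lemma HasZeroSub.exists_le {G : Type} [AddCommGroup G] {S : List G} {t : ℕ}
    (h : HasZeroSub S t) : ∃ U ≤ (S : Multiset G), Multiset.card U = t ∧ U.sum = 0 := by
  obtain ⟨T, hT, hc, hs⟩ := h
  exact ⟨(T : Multiset G), Multiset.coe_le.mpr hT.subperm, by simpa using hc, by simpa using hs⟩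

section
variable {k d : ℕ}

/-- integer representatives -/
def lift (x : Fin d → ZMod (2 ^ k)) : Fin d → ℤ := fun i => ((x i).val : ℤ)

lemma red_lift (x : Fin d → ZMod (2 ^ k)) : red d (2 ^ k) (lift x) = x := by
  ext i
  change (((x i).val : ℤ) : ZMod (2 ^ k)) = x i
  rw [Int.cast_natCast, ZMod.natCast_zmod_val]

lemma map_red_lift (S : Multiset (Fin d → ZMod (2 ^ k))) :
    (S.map lift).map (red d (2 ^ k)) = S := by
  rw [Multiset.map_map]
  conv_rhs => rw [← Multiset.map_id S]
  exact Multiset.map_congr rfl (fun x _ => red_lift x)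

lemma hasZeroSub_of_lift {S : List (Fin d → ZMod (2 ^ k))} (T : Multiset (Fin d → ℤ))
    (hT : T ≤ (S : Multiset (Fin d → ZMod (2 ^ k))).map lift) (hc : Multiset.card T = 2 ^ k)
    (hs : red d (2 ^ k) T.sum = 0) : HasZeroSub S (2 ^ k) := by
  refine hasZeroSub_of_le (T.map (red d (2 ^ k))) ?_ ?_ ?_
  · have := Multiset.map_le_map (f := red d (2 ^ k)) hT
    rwa [map_red_lift] at this
  · rw [Multiset.card_map, hc]
  · rw [← map_multiset_sum, hs]

lemma upper1 (S : List (Fin d → ZMod (2 ^ k))) (h : 2 ^ d * (2 ^ k - 1) + 1 ≤ S.length) :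
    HasZeroSub S (2 ^ k) := by
  obtain ⟨T, hT, hc, hs⟩ := harborth k ((S : Multiset (Fin d → ZMod (2 ^ k))).map lift) (by
    rw [Multiset.card_map]; simpa using h)
  exact hasZeroSub_of_lift T hT hc hs

lemma upper2 (hd : 1 ≤ d) (hdk : d ≤ k) (S : List (Fin d → ZMod (2 ^ k)))
    (h : 2 ^ d * (2 ^ k - 1) ≤ S.length) (h0 : S.sum = 0) : HasZeroSub S (2 ^ k) := by
  by_cases hl : 2 ^ d * (2 ^ k - 1) + 1 ≤ S.length
  · exact upper1 S hl
  by_contra hno
  have hnb : NoBad k ((S : Multiset (Fin d → ZMod (2 ^ k))).map lift) := fun T hT hc hs =>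
    hno (hasZeroSub_of_lift T hT hc hs)
  refine sum_ne k hd hdk _ ?_ hnb ?_
  · rw [Multiset.card_map, Multiset.coe_card]; omega
  · rw [map_multiset_sum, map_red_lift]; simpa using h0

/-- the 0/1 vector with the given coordinates -/
def emb (b : Fin d → Bool) : Fin d → ZMod (2 ^ k) := fun i => if b i then 1 else 0

/-- every 0/1 vector `2^k - 1` times -/
def base (d k : ℕ) : Multiset (Fin d → Bool) :=
  (2 ^ k - 1) • (Finset.univ : Finset (Fin d → Bool)).val

lemma card_base : Multiset.card (base d k) = 2 ^ d * (2 ^ k - 1) := by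
  have h2 : Multiset.card (Finset.univ : Finset (Fin d → Bool)).val = 2 ^ d := by
    change (Finset.univ : Finset (Fin d → Bool)).card = 2 ^ d
    rw [Finset.card_univ, Fintype.card_pi]; simp
  rw [base, Multiset.card_nsmul, h2]
  simp [mul_comm]

lemma no_bad_base (T : Multiset (Fin d → Bool)) (hT : T ≤ base d k)
    (hc : Multiset.card T = 2 ^ k) : (T.map (emb (k := k))).sum ≠ 0 := by
  classical
  intro hs
  have hpos : 0 < Multiset.card T := by rw [hc]; positivity
  obtain ⟨b0, hb0⟩ := Multiset.card_pos_iff_exists_mem.mp hpos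
  have hall : ∀ b ∈ T, b = b0 := by
    have key : ∀ i, (∀ b ∈ T, b i = true) ∨ (∀ b ∈ T, b i ≠ true) := by
      intro i
      have h1 : (((T.filter (fun b => b i = true)).card : ℕ) : ZMod (2 ^ k)) = 0 := by
        have h2 := congrArg (Pi.evalAddMonoidHom (fun _ : Fin d => ZMod (2 ^ k)) i) hs
        rw [map_multiset_sum, Multiset.map_map, map_zero] at h2
        rw [← h2]
        clear h2 hs hc hpos hT hb0
        induction T using Multiset.induction_on with
        | empty => simp
        | cons b T ih =>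
          rw [Multiset.map_cons, Multiset.sum_cons, ← ih]
          by_cases hb : b i = true
          · rw [Multiset.filter_cons_of_pos (p := fun b : Fin d → Bool => b i = true) T hb,
              Multiset.card_cons]
            simp [emb, hb, add_comm]
          · rw [Multiset.filter_cons_of_neg (p := fun b : Fin d → Bool => b i = true) T hb]
            simp [emb, hb]
      rw [ZMod.natCast_eq_zero_iff] at h1
      have hle : (T.filter (fun b => b i = true)).card ≤ 2 ^ k := by
        rw [← hc]; exact Multiset.card_le_card (Multiset.filter_le _ _)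
      rcases Nat.eq_zero_or_pos (T.filter (fun b => b i = true)).card with h0 | h0
      · right
        rw [Multiset.card_eq_zero, Multiset.filter_eq_nil] at h0
        exact h0
      · left
        have h3 : (T.filter (fun b => b i = true)).card = 2 ^ k :=
          le_antisymm hle (Nat.le_of_dvd h0 h1)
        have h4 : T.filter (fun b => b i = true) = T :=
          Multiset.eq_of_le_of_card_le (Multiset.filter_le _ _) (by rw [h3, hc])
        exact Multiset.filter_eq_self.mp h4
    intro b hb
    ext i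
    rcases key i with h | h
    · rw [h b hb, h b0 hb0]
    · have h1 := h b hb
      have h2 := h b0 hb0
      simp only [Bool.not_eq_true] at h1 h2
      rw [h1, h2]
  have h1 : T = Multiset.replicate (2 ^ k) b0 := by
    rw [← hc]; exact Multiset.eq_replicate.mpr ⟨rfl, hall⟩
  have h2 := Multiset.count_le_of_le b0 hT
  rw [h1, Multiset.count_replicate_self, base, Multiset.count_nsmul,
    Multiset.count_eq_one_of_mem Finset.univ.nodup (Finset.mem_univ_val b0), mul_one] at h2
  have : 1 ≤ 2 ^ k := Nat.one_le_two_pow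
  omega

/-- a sequence of translated 0/1 vectors -/
lemma lower (R : Multiset (Fin d → Bool)) (hR : R ≤ base d k) (v : Fin d → ZMod (2 ^ k)) :
    ¬ HasZeroSub ((R.map (fun b => emb b + v)).toList) (2 ^ k) := by
  classical
  intro h
  obtain ⟨U, hU, hc, hs⟩ := h.exists_le
  rw [Multiset.coe_toList] at hU
  obtain ⟨T, hT, rfl⟩ := exists_le_map _ R U hU
  rw [Multiset.card_map] at hc
  refine no_bad_base T (hT.trans hR) hc ?_
  rw [Multiset.sum_map_add, Multiset.map_const', Multiset.sum_replicate, hc,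
    nsmul_self_zero, add_zero] at hs
  exact hs

lemma sum_translate (R : Multiset (Fin d → Bool)) (v : Fin d → ZMod (2 ^ k)) :
    (R.map (fun b => emb b + v)).toList.sum = (R.map emb).sum + Multiset.card R • v := by
  rw [Multiset.sum_toList, Multiset.sum_map_add, Multiset.map_const', Multiset.sum_replicate]

/-- `k < d`: an extremal zero-sum sequence -/
lemma lower1 (hkd : k < d) : ∃ S : List (Fin d → ZMod (2 ^ k)), S.sum = 0 ∧
    S.length = 2 ^ d * (2 ^ k - 1) ∧ ¬ HasZeroSub S (2 ^ k) := by
  classical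
  refine ⟨((base d k).map (fun b => emb b + 0)).toList, ?_, ?_, lower _ le_rfl 0⟩
  · rw [sum_translate, smul_zero, add_zero, base, Multiset.map_nsmul, Multiset.sum_nsmul]
    have h0 : (Multiset.map (emb (k := k)) (Finset.univ : Finset (Fin d → Bool)).val).sum = 0 := by
      change ∑ b : Fin d → Bool, emb (k := k) b = 0
      ext i
      rw [Finset.sum_apply, Pi.zero_apply]
      set c : ℕ := (Finset.univ.filter (fun b : Fin d → Bool => b i = true)).card with hcdef
      have h1 : ∑ b : Fin d → Bool, emb (k := k) b i = ((c : ℕ) : ZMod (2 ^ k)) := by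
        rw [hcdef, Finset.card_filter]
        push_cast
        apply Finset.sum_congr rfl
        intro b _
        rfl
      have h2 : (Finset.univ.filter (fun b : Fin d → Bool => ¬ b i = true)).card = c := by
        refine Finset.card_bij' (fun b _ => Function.update b i (!(b i)))
          (fun b _ => Function.update b i (!(b i))) ?_ ?_ ?_ ?_
        · intro b hb
          simp only [Finset.mem_filter, Finset.mem_univ, true_and] at hb ⊢
          simp [hb]
        · intro b hb
          simp only [Finset.mem_filter, Finset.mem_univ, true_and] at hb ⊢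
          simp [hb]
        · intro b _; ext j; by_cases hj : j = i
          · subst hj; simp
          · simp [hj]
        · intro b _; ext j; by_cases hj : j = i
          · subst hj; simp
          · simp [hj]
      have h3 := Finset.card_filter_add_card_filter_not (s := (Finset.univ : Finset (Fin d → Bool)))
        (fun b => b i = true)
      rw [h2, ← hcdef, Finset.card_univ, Fintype.card_pi] at h3
      simp only [Fintype.card_bool, Finset.prod_const, Finset.card_univ, Fintype.card_fin] at h3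
      have h4 : c = 2 ^ (d - 1) := by
        have h5 : 2 ^ d = 2 * 2 ^ (d - 1) := by
          rw [← pow_succ']; congr 1; omega
        omega
      rw [h1, h4, ZMod.natCast_eq_zero_iff]
      exact pow_dvd_pow 2 (by omega)
    rw [h0, smul_zero]
  · rw [Multiset.length_toList, Multiset.card_map, card_base]

/-- `1 ≤ d ≤ k`: a zero-sum sequence one shorter than the extremal ones -/
lemma lower2 (hd : 1 ≤ d) (hdk : d ≤ k) : ∃ S : List (Fin d → ZMod (2 ^ k)), S.sum = 0 ∧
    S.length = 2 ^ d * (2 ^ k - 1) - 1 ∧ ¬ HasZeroSub S (2 ^ k) := by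
  classical
  have hk2 : 2 ≤ 2 ^ k := by
    calc 2 = 2 ^ 1 := rfl
      _ ≤ 2 ^ k := Nat.pow_le_pow_right (by norm_num) (hd.trans hdk)
  have hd2 : 2 ≤ 2 ^ d := by
    calc 2 = 2 ^ 1 := rfl
      _ ≤ 2 ^ d := Nat.pow_le_pow_right (by norm_num) hd
  have hN : 2 ≤ 2 ^ d * (2 ^ k - 1) := by
    have : 1 ≤ 2 ^ k - 1 := by omega
    nlinarith
  have hmem : (fun _ => false : Fin d → Bool) ∈ base d k := by
    rw [base, ← Multiset.count_pos, Multiset.count_nsmul,
      Multiset.count_eq_one_of_mem Finset.univ.nodup (Finset.mem_univ_val _)]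
    omega
  set R := (base d k).erase (fun _ => false) with hR
  have hRc : Multiset.card R = 2 ^ d * (2 ^ k - 1) - 1 := by
    rw [hR, Multiset.card_erase_of_mem hmem, card_base]; rfl
  have hcop : Nat.Coprime (2 ^ d * (2 ^ k - 1) - 1) (2 ^ k) := by
    apply Nat.Coprime.pow_right
    rw [Nat.coprime_two_right, Nat.odd_iff]
    obtain ⟨e, rfl⟩ : ∃ e, d = e + 1 := ⟨d - 1, by omega⟩
    have h1 : 2 ^ (e + 1) * (2 ^ k - 1) = 2 * (2 ^ e * (2 ^ k - 1)) := by ring
    omega
  set L : ℕ := 2 ^ d * (2 ^ k - 1) - 1 with hL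
  have hunit : ((L : ℕ) : ZMod (2 ^ k)) * ((L : ℕ) : ZMod (2 ^ k))⁻¹ = 1 :=
    ZMod.coe_mul_inv_eq_one L hcop
  set s : Fin d → ZMod (2 ^ k) := (R.map emb).sum with hs
  refine ⟨(R.map (fun b => emb b + (fun i => -(((L : ℕ) : ZMod (2 ^ k))⁻¹ * s i)))).toList,
    ?_, ?_, lower R (Multiset.erase_le _ _) _⟩
  · rw [sum_translate, hRc, ← hs]
    ext i
    rw [Pi.add_apply, Pi.smul_apply, nsmul_eq_mul, mul_neg, ← mul_assoc, hunit, one_mul,
      add_neg_cancel, Pi.zero_apply]
  · rw [Multiset.length_toList, Multiset.card_map, hRc]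

end

/-- **Main result** (Q1 of the problem). For all `k ≥ 0` and `d ≥ 1`, with `n = 2^k` and `l` the
least integer `≥ 2^d` that does not divide `n`, the modified Erdős-Ginzburg-Ziv constant
`s'_n((Z/n)^d)` is `2^d n - l + 1`. -/
theorem result (k d : ℕ) (hd : 1 ≤ d) (l : ℕ)
    (hl : IsLeast {l : ℕ | 2 ^ d ≤ l ∧ ¬ l ∣ 2 ^ k} l) :
    ∃ L : ℕ, (L : ℤ) = 2 ^ d * 2 ^ k - l + 1 ∧
      IsModifiedEGZ (Fin d → ZMod (2 ^ k)) (2 ^ k) L := by
  have hk1 : 1 ≤ 2 ^ k := Nat.one_le_two_pow
  have hd1 : 1 ≤ 2 ^ d := Nat.one_le_two_pow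
  rcases Nat.lt_or_ge k d with hkd | hdk
  · -- l = 2^d
    have hmem : 2 ^ d ∈ {l : ℕ | 2 ^ d ≤ l ∧ ¬ l ∣ 2 ^ k} := by
      refine ⟨le_rfl, fun hdvd => ?_⟩
      have h1 := Nat.le_of_dvd (by positivity) hdvd
      have h2 : 2 ^ k < 2 ^ d := Nat.pow_lt_pow_right (by norm_num) hkd
      omega
    have hle : l = 2 ^ d := le_antisymm (hl.2 hmem) hl.1.1
    refine ⟨2 ^ d * (2 ^ k - 1) + 1, ?_, ?_, ?_⟩
    · rw [hle]
      push_cast [Nat.cast_sub hk1]
      ring
    · intro S _ h
      exact upper1 S h
    · intro L hL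
      by_contra hlt
      obtain ⟨S, h0, hlen, hno⟩ := lower1 hkd
      exact hno (hL S h0 (by omega))
  · have hdvd : 2 ^ d ∣ 2 ^ k := pow_dvd_pow 2 hdk
    have hd2 : 2 ≤ 2 ^ d := by
      calc 2 = 2 ^ 1 := rfl
        _ ≤ 2 ^ d := Nat.pow_le_pow_right (by norm_num) hd
    have hk2 : 2 ≤ 2 ^ k := hd2.trans (Nat.le_of_dvd (by positivity) hdvd)
    have hmem : 2 ^ d + 1 ∈ {l : ℕ | 2 ^ d ≤ l ∧ ¬ l ∣ 2 ^ k} := by
      refine ⟨by omega, fun hdv => ?_⟩
      have hcop : Nat.Coprime (2 ^ d + 1) (2 ^ k) := by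
        apply Nat.Coprime.pow_right
        rw [Nat.coprime_two_right, Nat.odd_iff]
        obtain ⟨e, rfl⟩ : ∃ e, d = e + 1 := ⟨d - 1, by omega⟩
        have h1 : 2 ^ (e + 1) = 2 * 2 ^ e := by ring
        omega
      have := Nat.Coprime.eq_one_of_dvd hcop hdv
      omega
    have hle : l = 2 ^ d + 1 := by
      apply le_antisymm (hl.2 hmem)
      have h1 := hl.1.1
      rcases Nat.lt_or_ge (2 ^ d) l with h | h
      · exact h
      · exfalso
        have : l = 2 ^ d := le_antisymm h h1
        exact hl.1.2 (by rw [this]; exact hdvd)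
    have hN : 2 ≤ 2 ^ d * (2 ^ k - 1) := by
      have : 1 ≤ 2 ^ k - 1 := by omega
      nlinarith
    refine ⟨2 ^ d * (2 ^ k - 1), ?_, ?_, ?_⟩
    · rw [hle]
      push_cast [Nat.cast_sub hk1]
      ring
    · intro S h0 h
      exact upper2 hd hdk S h h0
    · intro L hL
      by_contra hlt
      obtain ⟨S, h0, hlen, hno⟩ := lower2 hd hdk
      exact hno (hL S h0 (by omega))

end Pool.Agent.Results.MP_4c442e_co.Full
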